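import Pool.Agent.H80.HS.Targets

set_option autoImplicit false

namespace Pool.Agent.H48.HS.L2

open MeasureTheory Set Pool.Agent.H80.HS
open scoped ContDiff ENNReal

theorem l2 : T_V8 → T_L2 := by
  intro hV8 n hn u ε τ hu hc hpos hε hτ
  obtain ⟨v, hv⟩ : ∃ v : H n → ℝ, v = fun q : H n => Real.smoothTransition ((u q - τ) / ε) :=
    ⟨_, rfl⟩
  have hvC : ContDiff ℝ 1 v := by
    rw [hv]
    exact Real.smoothTransition.contDiff.comp ((hu.sub contDiff_const).div_const ε)
  have hv0 : ∀ p, 0 ≤ v p := by
    intro p
    rw [hv]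
    exact Real.smoothTransition.nonneg _
  have hv1 : ∀ p, v p ≤ 1 := by
    intro p
    rw [hv]
    exact Real.smoothTransition.le_one _
  have hvz : ∀ p, u p ≤ τ → v p = 0 := by
    intro p hp
    rw [hv]
    apply Real.smoothTransition.zero_of_nonpos
    apply div_nonpos_of_nonpos_of_nonneg _ hε.le
    linarith
  have hvc : HasCompactSupport v := by
    apply HasCompactSupport.intro hc
    intro p hp
    apply hvz
    rw [image_eq_zero_of_notMem_tsupport hp]
    exact hτ.le
  have hsub : {p | τ + ε ≤ u p} ⊆ {p | 1 ≤ v p} := by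
    intro p hp
    have hp' : τ + ε ≤ u p := hp
    show 1 ≤ v p
    rw [hv]
    apply le_of_eq
    symm
    apply Real.smoothTransition.one_of_one_le
    rw [le_div_iff₀ hε]
    linarith
  have hfin1 : volume {p : H n | 1 ≤ v p} ≠ ⊤ := by
    have hs : {p : H n | 1 ≤ v p} ⊆ tsupport v := by
      intro p hp
      by_contra hcon
      have hp' : 1 ≤ v p := hp
      rw [image_eq_zero_of_notMem_tsupport hcon] at hp'
      linarith
    exact ((measure_mono hs).trans_lt hvc.isCompact.measure_lt_top).ne
  have hfin2 : volume {p : H n | τ < u p} ≠ ⊤ := by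
    have hs : {p : H n | τ < u p} ⊆ tsupport u := by
      intro p hp
      by_contra hcon
      have hp' : τ < u p := hp
      rw [image_eq_zero_of_notMem_tsupport hcon] at hp'
      linarith
    exact ((measure_mono hs).trans_lt hc.isCompact.measure_lt_top).ne
  have h1 : (volume {p | τ + ε ≤ u p}).toReal ≤ (volume {p | 1 ≤ v p}).toReal :=
    ENNReal.toReal_mono hfin1 (measure_mono hsub)
  have h2 := hV8 n hn v hvC hvc hv0
  have hmeas : MeasurableSet {p : H n | τ < u p} := by
    exact (isOpen_lt continuous_const hu.continuous).measurableSet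
  have h3 : ∫ p, v p ≤ (volume {p | τ < u p}).toReal := by
    have e : (volume {p : H n | τ < u p}).toReal =
        ∫ p, ({p : H n | τ < u p}.indicator (1 : H n → ℝ)) p := by
      rw [integral_indicator_one hmeas]
      rfl
    rw [e]
    apply integral_mono
    · exact hvC.continuous.integrable_of_hasCompactSupport hvc
    · exact (integrable_indicator_iff hmeas).2 (integrableOn_const hfin2)
    · intro p
      by_cases hp : τ < u p
      · have : ({p : H n | τ < u p}.indicator (1 : H n → ℝ)) p = 1 := by
          rw [Set.indicator_of_mem (show p ∈ {p : H n | τ < u p} from hp)]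
          rfl
        show v p ≤ _
        rw [this]
        exact hv1 p
      · have : ({p : H n | τ < u p}.indicator (1 : H n → ℝ)) p = 0 := by
          rw [Set.indicator_of_notMem (show p ∉ {p : H n | τ < u p} from hp)]
        show v p ≤ _
        rw [this, hvz p (not_lt.1 hp)]
  have h4 : (∫ p, v p) ^ (1 / (2 * (n : ℝ) + 2)) ≤
      (volume {p | τ < u p}).toReal ^ (1 / (2 * (n : ℝ) + 2)) :=
    Real.rpow_le_rpow (integral_nonneg hv0) h3 (by positivity)
  have h5 : 0 ≤ CC n * ∫ p, grad v p :=
    mul_nonneg (CC_pos hn).le (integral_nonneg (grad_nonneg v))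
  rw [← hv]
  exact h1.trans (h2.trans (mul_le_mul_of_nonneg_left h4 h5))

end Pool.Agent.H48.HS.L2
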