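import Pool.Agent.H80.HS.Targets

set_option autoImplicit false

namespace Pool.Agent.H48.HS.V0

open MeasureTheory Set Pool.Agent.H80.HS
open scoped ContDiff ENNReal Interval

theorem flow {n : ℕ} (Φ : ℝ → H n → H n) (v g : H n → ℝ) (a : ℝ)
    (hΦ : Continuous fun q : H n × ℝ => Φ q.2 q.1) (hmp : ∀ s, MeasurePreserving (Φ s))
    (hv : Continuous v) (hg : Continuous g) (hgi : Integrable g)
    (hd : ∀ p s, HasDerivAt (fun s => v (Φ s p)) (g (Φ s p)) s) (h0 : ∀ p, Φ 0 p = p) :
    ∫ p, |v (Φ a p) - v p| ≤ |a| * ∫ p, ‖g p‖ := by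
  have hΦa : Continuous (Φ a) := hΦ.comp (by fun_prop : Continuous fun p : H n => (p, a))
  have hgΦ : Continuous fun q : H n × ℝ => g (Φ q.2 q.1) := hg.comp hΦ
  have e1 : ∫ p, |v (Φ a p) - v p| = (∫⁻ p, ‖v (Φ a p) - v p‖ₑ).toReal := by
    rw [← integral_norm_eq_lintegral_enorm]
    · rfl
    · exact ((hv.comp hΦa).sub hv).aestronglyMeasurable
  have e2 : ∫ p, ‖g p‖ = (∫⁻ p, ‖g p‖ₑ).toReal :=
    integral_norm_eq_lintegral_enorm hg.aestronglyMeasurable
  have hfin : ∫⁻ p, ‖g p‖ₑ ≠ ⊤ := hgi.2.ne
  have hvol : volume (Ι 0 a) = ENNReal.ofReal |a| := by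
    rw [uIoc, Real.volume_Ioc, max_sub_min_eq_abs, sub_zero]
  have hpt : ∀ p, ‖v (Φ a p) - v p‖ₑ ≤ ∫⁻ s in Ι 0 a, ‖g (Φ s p)‖ₑ := by
    intro p
    have hcs : Continuous fun s : ℝ => g (Φ s p) :=
      hgΦ.comp (by fun_prop : Continuous fun s : ℝ => (p, s))
    have hI : ∫ s in (0 : ℝ)..a, g (Φ s p) = v (Φ a p) - v p := by
      have := intervalIntegral.integral_eq_sub_of_hasDerivAt (a := (0 : ℝ)) (b := a)
        (f := fun s => v (Φ s p)) (f' := fun s => g (Φ s p)) (fun s _ => hd p s)
        (hcs.intervalIntegrable _ _)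
      rw [this, h0]
    rw [← hI, ← ofReal_norm, intervalIntegral.norm_intervalIntegral_eq,
      ofReal_norm]
    exact enorm_integral_le_lintegral_enorm _
  have hkey : ∫⁻ p, ‖v (Φ a p) - v p‖ₑ ≤ ENNReal.ofReal |a| * ∫⁻ p, ‖g p‖ₑ := by
    calc ∫⁻ p, ‖v (Φ a p) - v p‖ₑ ≤ ∫⁻ p, ∫⁻ s in Ι 0 a, ‖g (Φ s p)‖ₑ := lintegral_mono hpt
      _ = ∫⁻ s in Ι 0 a, ∫⁻ p, ‖g (Φ s p)‖ₑ := by
          apply lintegral_lintegral_swap
          exact (hgΦ.enorm.measurable).aemeasurable
      _ = ∫⁻ _ in Ι 0 a, ∫⁻ p, ‖g p‖ₑ := by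
          apply lintegral_congr
          intro s
          exact (hmp s).lintegral_comp (hg.enorm.measurable)
      _ = ENNReal.ofReal |a| * ∫⁻ p, ‖g p‖ₑ := by
          rw [setLIntegral_const, hvol, mul_comm]
  rw [e1, e2]
  have h3 := ENNReal.toReal_mono (ENNReal.mul_ne_top ENNReal.ofReal_ne_top hfin) hkey
  rw [ENNReal.toReal_mul, ENNReal.toReal_ofReal (abs_nonneg a)] at h3
  exact h3

/-- the flow in the x-direction preserves the measure -/
theorem mpX {n : ℕ} (j : Fin n) (s : ℝ) : MeasurePreserving (fun p : H n =>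
    ((p.1 + s • EuclideanSpace.single j (1 : ℝ), p.2.1, p.2.2 + 2 * s * p.2.1 j) : H n)) := by
  have h1 : MeasurePreserving (fun x : V n => x + s • EuclideanSpace.single j (1 : ℝ)) :=
    measurePreserving_add_right volume _
  have h2 : MeasurePreserving (fun q : V n × ℝ => (q.1, q.2 + 2 * s * q.1 j)) := by
    apply MeasurePreserving.skew_product (g := fun (y : V n) (t : ℝ) => t + 2 * s * y j)
      (MeasurePreserving.id volume)
    · apply Continuous.measurable
      fun_prop
    · exact Filter.Eventually.of_forall fun y =>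
        (measurePreserving_add_right volume (2 * s * y j)).map_eq
  exact h1.prod h2

/-- the flow in the y-direction preserves the measure -/
theorem mpY {n : ℕ} (j : Fin n) (s : ℝ) : MeasurePreserving (fun p : H n =>
    ((p.1, p.2.1 + s • EuclideanSpace.single j (1 : ℝ), p.2.2 - 2 * s * p.1 j) : H n)) := by
  apply MeasurePreserving.skew_product (g := fun (x : V n) (q : V n × ℝ) =>
    (q.1 + s • EuclideanSpace.single j (1 : ℝ), q.2 - 2 * s * x j))
      (MeasurePreserving.id volume)
  · apply Continuous.measurable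
    fun_prop
  · apply Filter.Eventually.of_forall
    intro x
    have h1 : MeasurePreserving (fun y : V n => y + s • EuclideanSpace.single j (1 : ℝ)) :=
      measurePreserving_add_right volume _
    have h2 : MeasurePreserving (fun t : ℝ => t - 2 * s * x j) :=
      measurePreserving_sub_right volume _
    exact (h1.prod h2).map_eq

theorem v0 : T_V0 := by
  intro n v a j hv hc
  have hfd : ∀ p : H n, HasFDerivAt v (fderiv ℝ v p) p := fun p =>
    (hv.differentiable one_ne_zero p).hasFDerivAt
  constructor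
  · apply flow (fun s p => ((p.1 + s • EuclideanSpace.single j (1 : ℝ), p.2.1,
      p.2.2 + 2 * s * p.2.1 j) : H n)) v (X v j) a
    · fun_prop
    · exact mpX j
    · exact hv.continuous
    · exact continuous_X hv j
    · exact (continuous_X hv j).integrable_of_hasCompactSupport
        (HasCompactSupport.intro hc fun p hp => X_eq_zero hp j)
    · intro p s
      unfold X
      have h1 : HasDerivAt (fun s : ℝ => ((p.1 + s • EuclideanSpace.single j (1 : ℝ), p.2.1,
          p.2.2 + 2 * s * p.2.1 j) : H n)) (EuclideanSpace.single j (1 : ℝ), 0, 2 * p.2.1 j) s := by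
        apply HasDerivAt.prodMk
        · have := ((hasDerivAt_id s).smul_const (EuclideanSpace.single j (1 : ℝ))).const_add p.1
          simpa using this
        · apply HasDerivAt.prodMk (hasDerivAt_const _ _)
          have := (((hasDerivAt_id s).const_mul 2).mul_const (p.2.1 j)).const_add p.2.2
          simpa using this
      exact (hfd _).comp_hasDerivAt s h1
    · intro p
      simp
  · apply flow (fun s p => ((p.1, p.2.1 + s • EuclideanSpace.single j (1 : ℝ),
      p.2.2 - 2 * s * p.1 j) : H n)) v (Y v j) a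
    · fun_prop
    · exact mpY j
    · exact hv.continuous
    · exact continuous_Y hv j
    · exact (continuous_Y hv j).integrable_of_hasCompactSupport
        (HasCompactSupport.intro hc fun p hp => Y_eq_zero hp j)
    · intro p s
      unfold Y
      have h1 : HasDerivAt (fun s : ℝ => ((p.1, p.2.1 + s • EuclideanSpace.single j (1 : ℝ),
          p.2.2 - 2 * s * p.1 j) : H n)) (0, EuclideanSpace.single j (1 : ℝ), -2 * p.1 j) s := by
        apply HasDerivAt.prodMk (hasDerivAt_const _ _)
        apply HasDerivAt.prodMk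
        · have := ((hasDerivAt_id s).smul_const (EuclideanSpace.single j (1 : ℝ))).const_add p.2.1
          simpa using this
        · have := (((hasDerivAt_id s).const_mul 2).mul_const (p.1 j)).const_sub p.2.2
          simpa using this
      exact (hfd _).comp_hasDerivAt s h1
    · intro p
      simp

end Pool.Agent.H48.HS.V0
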