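import Pool.Agent.H80.HS.Targets

set_option autoImplicit false

namespace Pool.Agent.H48.HS.V7

open MeasureTheory Set Pool.Agent.H80.HS
open scoped ContDiff ENNReal

theorem div_aux {I : ℝ≥0∞} {θ b : ℝ} (hθ : 0 < θ) (h : ENNReal.ofReal θ * I ≤ ENNReal.ofReal b) :
    I ≤ ENNReal.ofReal (b / θ) := by
  rw [ENNReal.ofReal_div_of_pos hθ]
  have h0 : ENNReal.ofReal θ ≠ 0 := by
    rw [ENNReal.ofReal_ne_zero_iff]
    exact hθ
  rw [ENNReal.le_div_iff_mul_le (Or.inl h0) (Or.inl ENNReal.ofReal_ne_top), mul_comm]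
  exact h

theorem v7 : T_S5 → T_S6 → T_V2 → T_V3 → T_V5 → T_V6 → T_V7 := by
  intro hS5 hS6 hV2 hV3 hV5 hV6 n hn v h θ hv hc hpos hh hθ
  obtain ⟨hwC, hwc, -⟩ := hV2 n v h hv hc hh
  obtain ⟨hgX, hgY⟩ := hV3 n v h hv hc hh
  have hw0 : ∀ p, 0 ≤ sm h v p := by
    intro p
    unfold sm
    apply mul_nonneg (by positivity)
    exact intervalIntegral.integral_nonneg hh.le (fun σ _ => hpos _)
  have hFc : IsCompact {p | θ ≤ sm h v p} := by
    apply hwc.isCompact.of_isClosed_subset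
    · exact isClosed_le continuous_const hwC.continuous
    · intro p hp
      by_contra hcon
      have hp' : θ ≤ sm h v p := hp
      rw [image_eq_zero_of_notMem_tsupport hcon] at hp'
      linarith
  have h5 := div_aux hθ (hS5 n hn (sm h v) θ hwC hwc hw0 hθ)
  have h6 := div_aux hθ (hS6 n hn (sm h v) θ hwC hwc hw0 hθ)
  have h7 := hV5 n v h θ hv hc hpos hh hθ
  have hK := K_pos hn
  have iX : 0 ≤ ∫ p, gX (sm h v) p := integral_nonneg (gX_nonneg _)
  have iY : 0 ≤ ∫ p, gY (sm h v) p := integral_nonneg (gY_nonneg _)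
  have iX' : 0 ≤ ∫ p, gX v p := integral_nonneg (gX_nonneg _)
  have iY' : 0 ≤ ∫ p, gY v p := integral_nonneg (gY_nonneg _)
  have iv : 0 ≤ ∫ p, v p := integral_nonneg hpos
  have hc0 : 0 ≤ (∫ p, v p) / (θ * h) := by positivity
  have h8 := hV6 n hn {p | θ ≤ sm h v p} (K n * (∫ p, gX (sm h v) p) / θ)
    (K n * (∫ p, gY (sm h v) p) / θ) ((∫ p, v p) / (θ * h)) hFc (by positivity) (by positivity)
    hc0 h5 h6 h7
  refine h8.trans ?_
  apply mul_le_mul_of_nonneg_right _ (Real.rpow_nonneg hc0 _)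
  -- the product of the two integrals
  have hsum : (∫ p, gX v p) + ∫ p, gY v p ≤ Real.sqrt 2 * ∫ p, grad v p := by
    rw [← integral_add (integrable_gX hv hc) (integrable_gY hv hc), ← integral_const_mul]
    apply integral_mono ((integrable_gX hv hc).add (integrable_gY hv hc))
      ((integrable_grad hv hc).const_mul _)
    intro p
    exact gX_add_gY_le v p
  have h9 : (∫ p, gX (sm h v) p) * (∫ p, gY (sm h v) p) ≤ (∫ p, grad v p) ^ 2 / 2 := by
    have e1 : (∫ p, gX (sm h v) p) * (∫ p, gY (sm h v) p) ≤ (∫ p, gX v p) * ∫ p, gY v p :=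
      mul_le_mul hgX hgY iY iX'
    have e2 : ((∫ p, gX v p) + ∫ p, gY v p) ^ 2 ≤ (Real.sqrt 2 * ∫ p, grad v p) ^ 2 :=
      pow_le_pow_left₀ (by positivity) hsum 2
    have e3 : (Real.sqrt 2 * ∫ p, grad v p) ^ 2 = 2 * (∫ p, grad v p) ^ 2 := by
      rw [mul_pow, Real.sq_sqrt (by norm_num)]
    have e4 : 4 * ((∫ p, gX v p) * ∫ p, gY v p) ≤ ((∫ p, gX v p) + ∫ p, gY v p) ^ 2 := by
      nlinarith [sq_nonneg ((∫ p, gX v p) - ∫ p, gY v p)]
    linarith
  calc K n * (∫ p, gX (sm h v) p) / θ * (K n * (∫ p, gY (sm h v) p) / θ)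
      = K n ^ 2 / θ ^ 2 * ((∫ p, gX (sm h v) p) * (∫ p, gY (sm h v) p)) := by
        field_simp
    _ ≤ K n ^ 2 / θ ^ 2 * ((∫ p, grad v p) ^ 2 / 2) := by
        apply mul_le_mul_of_nonneg_left h9
        positivity
    _ = K n ^ 2 / (2 * θ ^ 2) * (∫ p, grad v p) ^ 2 := by
        field_simp

end Pool.Agent.H48.HS.V7
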